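import Mathlib
import Pool.Agent.R818.AS.Fin

/-!
# MP_1cbded_gt, Q1: a cosmic Ascoli space which is not a `k_ℝ`-space (in ZFC)

The space is a countable Boolean topological group.
-/

set_option autoImplicit false

open Set Filter Topology

namespace Pool.Agent.Results.MP_1cbded_gt.CosmicAscoliNotKR

/-- `X` is Ascoli: for every compact `K ⊆ C_k(X)` (compact-open topology) the evaluation map
`X × K → ℝ` is continuous. -/
def IsAscoli (X : Type) [TopologicalSpace X] : Prop :=
  ∀ K : Set C(X, ℝ), IsCompact K → Continuous (fun p : X × K => (p.2 : C(X, ℝ)) p.1)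

/-- `X` is a `k_ℝ`-space: every real function whose restrictions to all compact sets are
continuous is continuous. -/
def IsKR (X : Type) [TopologicalSpace X] : Prop :=
  ∀ f : X → ℝ, (∀ K : Set X, IsCompact K → ContinuousOn f K) → Continuous f

/-- `X` is cosmic: regular with a countable network. -/
def IsCosmic (X : Type) [TopologicalSpace X] : Prop :=
  RegularSpace X ∧ ∃ N : Set (Set X), N.Countable ∧
    ∀ U : Set X, IsOpen U → ∀ x ∈ U, ∃ A ∈ N, x ∈ A ∧ A ⊆ U

/-- There is (in ZFC) a countable Boolean Tychonoff topological group which is cosmic and Ascoli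
(it even is kappa-Frechet-Urysohn) but is not a `k_ℝ`-space. -/
theorem result : ∃ (X : Type) (_ : AddCommGroup X) (_ : TopologicalSpace X),
    IsTopologicalAddGroup X ∧ T35Space X ∧ Countable X ∧ (∀ x : X, x + x = 0) ∧
    (∀ U : Set X, IsOpen U → ∀ x ∈ closure U, ∃ y : ℕ → X, (∀ k, y k ∈ U) ∧
      Tendsto y atTop (𝓝 x)) ∧
    IsCosmic X ∧ IsAscoli X ∧ ¬ IsKR X := by
  obtain ⟨M, hM⟩ := Pool.Agent.R818.AS.exists_family
  have hne : M.Nonempty := Pool.Agent.R818.AS.Good.nonempty hM
  have h35 := Pool.Agent.R818.AS.t35 hne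
  refine ⟨Pool.Agent.R818.AS.H M, inferInstance, inferInstance, inferInstance, h35, inferInstance,
    ?_, ?_, ⟨inferInstance, ?_⟩, ?_, ?_⟩
  · intro x
    apply Prod.ext
    · show x.1 + x.1 = 0
      ext t
      exact Pool.Agent.R818.AS.two_eq _
    · exact Pool.Agent.R818.AS.two_eq _
  · intro U hU x hx
    obtain ⟨_, _, y, hy, hyt⟩ := Pool.Agent.R818.AS.strong_kFU hM (fun _ => U) (fun _ => hU) x
      (fun _ => hx)
    exact ⟨y, hy, hyt⟩
  · refine ⟨Set.range (fun x : Pool.Agent.R818.AS.H M => {x}), Set.countable_range _, ?_⟩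
    intro U _ x hx
    exact ⟨{x}, ⟨x, rfl⟩, rfl, Set.singleton_subset_iff.2 hx⟩
  · exact Pool.Agent.R818.AS.ascoli_of_strong (fun G hG x0 hx =>
      Pool.Agent.R818.AS.strong_kFU hM G hG x0 hx)
  · exact Pool.Agent.R818.AS.not_kR hM

end Pool.Agent.Results.MP_1cbded_gt.CosmicAscoliNotKR
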